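import Pool.Agent.U672.SF.Defs

/-!
# Noncommutative mixed motives: definitions
-/

set_option autoImplicit false

open CategoryTheory MonoidalCategory AlgebraicGeometry MvPolynomial Pool.Agent.TH137.DG
  Pool.Agent.Y116.UV Pool.Agent.Z125.UN Pool.Agent.U672.ST Pool.Agent.U672.SF

namespace Pool.Agent.U672.NC

universe v u w

/-- The data: a type `DG` of smooth proper dg categories over `k`, their noncommutative motives `U A` in
the category `K` of noncommutative mixed motives, the dg categories `perf X` of perfect complexes (used
for smooth proper `X`), and the noncommutative motives `Mc X` with compact support of all schemes of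
finite type (the image of the motive with compact support; the motive of the dg category of bounded
complexes of coherent sheaves on `X`). -/
structure Data (k : Type) [Field k] (K : Type u) where
  DG : Type
  U : DG → K
  perf : Sch k → DG
  Mc : Sch k → K

variable {k : Type} [Field k] {K : Type u} [Category.{v} K] [MonoidalCategory K]
  [SymmetricCategory K] [Preadditive K] [Linear ℚ K] [Limits.HasZeroObject K] [HasShift K ℤ]
  [∀ n : ℤ, (shiftFunctor K n).Additive] [Pretriangulated K]

/-- The thick tensor triangulated subcategory generated by the class `G`: the smallest class of objects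
which contains `G`, with two objects of a distinguished triangle also the third one, with an object its
shifts and its direct factors, and with two objects their tensor product. -/
inductive Glue (G : K → Prop) : K → Prop
  | gen (A : K) : G A → Glue G A
  | cone (T : Pretriangulated.Triangle K) : T ∈ Pretriangulated.distinguishedTriangles →
      Glue G T.obj₁ → Glue G T.obj₂ → Glue G T.obj₃
  | shift (A : K) (n : ℤ) : Glue G A → Glue G (A⟦n⟧)
  | factor (A B : K) (s : A ⟶ B) (r : B ⟶ A) : s ≫ r = 𝟙 A → Glue G B → Glue G A
  | tensor (A B : K) : Glue G A → Glue G B → Glue G (A ⊗ B)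

/-- The smallest class of objects which contains `G`, the direct factors of the sum of two members and
the tensor products of two members. -/
inductive NCPure (G : K → Prop) : K → Prop
  | gen (A : K) : G A → NCPure G A
  | factor (A B S : K) (i₁ : A ⟶ S) (i₂ : B ⟶ S) (p₁ : S ⟶ A) (p₂ : S ⟶ B) :
      p₁ ≫ i₁ + p₂ ≫ i₂ = 𝟙 S → NCPure G A → NCPure G B → NCPure G S
  | tensor (A B : K) : NCPure G A → NCPure G B → NCPure G (A ⊗ B)

/-- The motives of the dg categories in the class `Y`. -/
def Given (D : Data k K) (Y : D.DG → Prop) (B : K) : Prop := ∃ B', Y B' ∧ B = D.U B'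

/-- The smooth proper dg category `A` is *glued* from the class `Y` of dg categories and schemes built
from systems of equations of excess at most `N + 1`, sums of quasi-homogeneous polynomials, schemes of
dimension at most `N` and smooth proper schemes `X` with `perf X` in `Y` (these schemes may be singular
and not proper): its motive is in the thick tensor triangulated subcategory generated by their
motives. -/
def Glued (D : Data k K) (N : ℕ) (Y : D.DG → Prop) (A : D.DG) : Prop :=
  Glue (fun B => (∃ X, Constructed N (fun X => SmoothProper X ∧ Y (D.perf X)) X ∧ B = D.Mc X) ∨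
    Given D Y B) (D.U A)

/-- Standard properties of the triangulated category of noncommutative mixed motives of Kontsevich with
rational coefficients over a perfect field `k`, and of the images `Mc X` of the motives with compact
support of the schemes of finite type.

* `iso`, `localization`, `bundle`, `torus`, `kuenneth`, `transfer`: as for Voevodsky's category of
  geometric motives, from which they follow with the tensor functor to noncommutative mixed motives; the
  Tate motive becomes the unit object (Kontsevich, Tabuada);
* `perf`: for a smooth proper scheme `X` the object `Mc X` is the noncommutative motive of `perf X`;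
* `chow`: let `Y` be a class of smooth proper dg categories which contains `perf X` for all smooth proper
  schemes `X` of dimension at most `N`. If the motive of a smooth proper dg category `A` is in the thick
  tensor subcategory generated by the `Mc X` with `dim X ≤ N` and the motives of the members of `Y`,
  then it is a direct factor of a sum of products of motives of members of `Y` (alterations, and
  Tabuada's weight structure whose heart are the noncommutative Chow motives). -/
structure Facts (D : Data k K) : Prop where
  iso : ∀ {X Y : Sch k}, FT True X → Nonempty (X ≅ Y) → Nonempty (D.Mc X ≅ D.Mc Y)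
  localization : ∀ {Z X U : Sch k} (i : Z ⟶ X) (j : U ⟶ X), FT True X → IsTriple i j →
    ∃ (a : D.Mc Z ⟶ D.Mc X) (b : D.Mc X ⟶ D.Mc U) (d : D.Mc U ⟶ (D.Mc Z)⟦(1 : ℤ)⟧),
      Pretriangulated.Triangle.mk a b d ∈ Pretriangulated.distinguishedTriangles (C := K)
  bundle : ∀ (A : Type) [CommRing A] [Algebra k A] [Algebra.FiniteType k A] (m : ℕ)
    (f : Fin m → A) (U : Sch k) (j : U ⟶ aff k A), IsOpenImmersion j.left →
    Set.range j.left = {x : PrimeSpectrum A | ∃ l, f l ∉ x.asIdeal} →
    Nonempty (D.Mc (aff k (Jou f)) ≅ D.Mc U)
  torus : ∀ (A : Type) [CommRing A] [Algebra k A] [Algebra.FiniteType k A],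
    ∃ (s : D.Mc (aff k A) ⟶ D.Mc (aff k (LaurentPolynomial A)))
      (r : D.Mc (aff k (LaurentPolynomial A)) ⟶ D.Mc (aff k A)), s ≫ r = 𝟙 _
  kuenneth : ∀ (A B : Type) [CommRing A] [CommRing B] [Algebra k A] [Algebra k B]
    [Algebra.FiniteType k A] [Algebra.FiniteType k B],
    Nonempty (D.Mc (aff k (TensorProduct k A B)) ≅ D.Mc (aff k A) ⊗ D.Mc (aff k B))
  transfer : ∀ (A B : Type) [CommRing A] [CommRing B] [Algebra k A] [Algebra k B] [Algebra A B]
    [IsScalarTower k A B] [Algebra.FiniteType k A] (d : ℕ),
    Nonempty (Module.Basis (Fin (d + 1)) A B) →
      ∃ (s : D.Mc (aff k A) ⟶ D.Mc (aff k B)) (r : D.Mc (aff k B) ⟶ D.Mc (aff k A)), s ≫ r = 𝟙 _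
  perf : ∀ X : Sch k, SmoothProper X → Nonempty (D.Mc X ≅ D.U (D.perf X))
  chow : ∀ (N : ℕ) (Y : D.DG → Prop),
    (∀ X, SmoothProper X → topologicalKrullDim X.left ≤ N → Y (D.perf X)) →
    ∀ A, Glue (fun B => (∃ X : Sch k, (FT True X ∧ topologicalKrullDim X.left ≤ N) ∧
      B = D.Mc X) ∨ Given D Y B) (D.U A) → NCPure (Given D Y) (D.U A)

end Pool.Agent.U672.NC
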