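import Pool.Agent.U672.NC.Defs
import Pool.Agent.U672.SF.Main

/-!
# Noncommutative mixed motives of systems of equations
-/

set_option autoImplicit false
set_option linter.unusedSectionVars false

open CategoryTheory MonoidalCategory AlgebraicGeometry MvPolynomial Pool.Agent.TH137.DG
  Pool.Agent.Y116.UV Pool.Agent.Z125.UN Pool.Agent.U672.ST Pool.Agent.U672.TC Pool.Agent.U672.SF
  Pool.Agent.U672.MW Pool.Agent.U738.BN Pretriangulated

namespace Pool.Agent.U672.NC

universe v u w

variable {k : Type} [Field k] {K : Type u} [Category.{v} K] [MonoidalCategory K]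
  [SymmetricCategory K] [Preadditive K] [Linear ℚ K] [Limits.HasZeroObject K] [HasShift K ℤ]
  [∀ n : ℤ, (shiftFunctor K n).Additive] [Pretriangulated K] {D : Data k K} {N : ℕ}
  {Y : D.DG → Prop} {G : K → Prop}

lemma Glue.iso {A B : K} (e : Nonempty (A ≅ B)) (h : Glue G A) : Glue G B := by
  obtain ⟨e⟩ := e
  exact Glue.factor B A e.inv e.hom e.inv_hom_id h

lemma Glue.iso_iff {A B : K} (e : Nonempty (A ≅ B)) : Glue G A ↔ Glue G B :=
  ⟨Glue.iso e, Glue.iso (e.map Iso.symm)⟩

lemma Glue.unshift (A : K) (h : Glue G (A⟦(1 : ℤ)⟧)) : Glue G A :=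
  Glue.iso ⟨shiftShiftNeg A (1 : ℤ)⟩ (Glue.shift _ (-1) h)

lemma Glue.le {G' : K → Prop} (h : ∀ A, G A → Glue G' A) {A : K} (hA : Glue G A) :
    Glue G' A := by
  induction hA with
  | gen A hA => exact h A hA
  | cone T hT _ _ h1 h2 => exact Glue.cone T hT h1 h2
  | shift A n _ h1 => exact Glue.shift A n h1
  | factor A B s r hs _ h1 => exact Glue.factor A B s r hs h1
  | tensor A B _ _ h1 h2 => exact Glue.tensor A B h1 h2

/-- the generators -/
def Gen (D : Data k K) (N : ℕ) (Y : D.DG → Prop) (B : K) : Prop :=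
  (∃ X : Sch k, (FT True X ∧ topologicalKrullDim X.left ≤ N) ∧ B = D.Mc X) ∨ Given D Y B

lemma gen_aff (A : Type) [CommRing A] [Algebra k A] [Algebra.FiniteType k A]
    (hA : ringKrullDim A ≤ N) : Glue (Gen D N Y) (D.Mc (aff k A)) :=
  Glue.gen _ (Or.inl ⟨_, ⟨ft_aff True, by rw [topDim_aff]; exact hA⟩, rfl⟩)

variable (hD : Facts D)

include hD

theorem bnd_nc : Bnd True fun X : Sch k => Glue (Gen D N Y) (D.Mc X) where
  iso h e := Glue.iso (hD.iso h e)
  total i j h ht hZ hU := by
    obtain ⟨a, b, d, hT⟩ := hD.localization i j h ht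
    exact Glue.cone _ (inv_rot_of_distTriang _ hT) (Glue.shift _ (-1) hU) hZ
  opened i j h ht hZ hX := by
    obtain ⟨a, b, d, hT⟩ := hD.localization i j h ht
    exact Glue.cone _ hT hZ hX
  closed i j h ht hX hU := by
    obtain ⟨a, b, d, hT⟩ := hD.localization i j h ht
    exact Glue.unshift _ (Glue.cone _ (rot_of_distTriang _ hT) hX hU)
  space n := by
    have h1 : Glue (Gen D N Y) (D.Mc (aff k k)) := gen_aff k (by
      rw [ringKrullDim_eq_zero_of_field]
      exact_mod_cast Nat.zero_le N)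
    have h2 := hD.bundle k (n + 1) (f1 k n) (aff k k) (𝟙 _) inferInstance (range_id n)
    have h3 : Glue (Gen D N Y) (D.Mc (aff k (Jou (f1 k n)))) := (Glue.iso_iff h2).mpr h1
    exact Glue.iso (hD.iso (ft_aff True) ⟨(affIso (jouOne k n)).symm⟩) h3
  jouanolou A _ _ _ m f U j hj hr h := (Glue.iso_iff (hD.bundle A m f U j hj hr)).mp h
  torus A _ _ _ h := by
    obtain ⟨s, r, hs⟩ := hD.torus A
    exact Glue.factor _ _ s r hs h
  bundle A _ _ _ m f U j hj hr h := (Glue.iso_iff (hD.bundle A m f U j hj hr)).mpr h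

theorem bndt_nc : BndT fun X : Sch k => Glue (Gen D N Y) (D.Mc X) where
  toBnd := bnd_nc hD
  prod A B _ _ _ _ _ _ hA hB :=
    (Glue.iso_iff (hD.kuenneth A B)).mpr (Glue.tensor _ _ hA hB)
  transfer A B _ _ _ _ _ _ _ d b h := by
    obtain ⟨s, r, hs⟩ := hD.transfer A B d b
    exact Glue.factor _ _ s r hs h

theorem posN_nc : PosN True (fun X : Sch k => Glue (Gen D N Y) (D.Mc X)) N := by
  have h := pos_of_bnd (bndt_nc (N := N) (Y := Y) hD).toBnd fun A _ _ _ => by
    refine gen_aff A ?_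
    refine (dim_integral (A := k) A).trans ?_
    rw [ringKrullDim_eq_zero_of_field]
    exact_mod_cast Nat.zero_le N
  exact { toPos := h, dim := fun A _ _ _ hA => gen_aff A hA }

theorem constructed_glue (hN : 1 ≤ N) (X : Sch k)
    (hX : Constructed N (fun X => SmoothProper X ∧ Y (D.perf X)) X) :
    Glue (Gen D N Y) (D.Mc X) := by
  have hP := bndt_nc (N := N) (Y := Y) hD
  have hp : PosN True (fun X : Sch k => Glue (Gen D N Y) (D.Mc X)) N := posN_nc hD
  have h2 : Plane fun X : Sch k => Glue (Gen D N Y) (D.Mc X) := plane_of hp.dim hP hN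
  induction hX with
  | system σ q r G H he hI => exact main_P hP h2 hp G H hI he
  | sum n σ f A g hf hA => exact elem_sol hp.dim hP hN hf hA g
  | small X hX hd => exact Glue.gen _ (Or.inl ⟨X, ⟨hX, hd⟩, rfl⟩)
  | given X hX =>
    exact (Glue.iso_iff (hD.perf X hX.1)).mpr (Glue.gen _ (Or.inr ⟨_, hX.2, rfl⟩))
  | iso X Y hX e _ h => exact hP.iso hX e h
  | total i j hX ht _ _ h1 h2 => exact hP.total i j hX ht h1 h2
  | opened i j hX ht _ _ h1 h2 => exact hP.opened i j hX ht h1 h2
  | closed i j hX ht _ _ h1 h2 => exact hP.closed i j hX ht h1 h2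
  | product A B _ _ h1 h2 => exact hP.prod A B h1 h2
  | covering A B d b _ h => exact hP.transfer A B d b h

theorem glued_pure (hN : 1 ≤ N)
    (hs : ∀ X, SmoothProper X → topologicalKrullDim X.left ≤ N → Y (D.perf X)) (A : D.DG)
    (hA : Glued D N Y A) : NCPure (Given D Y) (D.U A) := by
  refine hD.chow N Y hs A (Glue.le ?_ hA)
  rintro B (⟨X, hX, rfl⟩ | hB)
  · exact constructed_glue hD hN X hX
  · exact Glue.gen _ (Or.inr hB)

end Pool.Agent.U672.NC
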