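import Mathlib

/-!
# Realizations in super vector spaces
-/

set_option autoImplicit false

open CategoryTheory MonoidalCategory

namespace Pool.Agent.U672.NC

universe v u w

/-- A realization in super vector spaces over `F` with a Künneth formula, for instance periodic cyclic
homology: the functors `H 0` and `H 1` are the even and the odd part. -/
structure Super (K : Type u) [Category.{v} K] [MonoidalCategory K] [Preadditive K] (F : Type)
    [Field F] where
  H : ZMod 2 → K ⥤ ModuleCat.{w} F
  additive : ∀ n, (H n).Additive
  mul : ∀ (A B : K) (i j n : ZMod 2), i + j = n →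
    ((H i).obj A →ₗ[F] (H j).obj B →ₗ[F] (H n).obj (A ⊗ B))
  mul_map : ∀ {A A' B B' : K} (f : A ⟶ A') (g : B ⟶ B') (i j n : ZMod 2) (h : i + j = n)
    (a : (H i).obj A) (b : (H j).obj B), ((H n).map (f ⊗ₘ g)).hom (mul A B i j n h a b) =
      mul A' B' i j n h (((H i).map f).hom a) (((H j).map g).hom b)
  mul_span : ∀ (A B : K) (n : ZMod 2), Submodule.span F {z : (H n).obj (A ⊗ B) |
    ∃ (i j : ZMod 2) (h : i + j = n) (a : (H i).obj A) (b : (H j).obj B),
      mul A B i j n h a b = z} = ⊤

/-- The even Künneth projector of the object `A` is algebraic: it is given by an endomorphism `p`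
of `A`. (Then `1 - p` gives the odd Künneth projector.) -/
def EvenAlgebraic {K : Type u} [Category.{v} K] [MonoidalCategory K] [Preadditive K] {F : Type}
    [Field F] (S : Super.{v, u, w} K F) (A : K) : Prop :=
  ∃ p : A ⟶ A, (S.H 0).map p = 𝟙 _ ∧ (S.H 1).map p = 0

end Pool.Agent.U672.NC
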