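import Pool.Agent.U672.NC.Main
import Pool.Agent.U672.NC.SignDefs

/-!
# The sign operator on noncommutative motives
-/

set_option autoImplicit false
set_option linter.unusedSectionVars false

open CategoryTheory MonoidalCategory

namespace Pool.Agent.U672.NC

universe v u w

variable {K : Type u} [Category.{v} K] [MonoidalCategory K] [Preadditive K] [Linear ℚ K]
  {F : Type} [Field F] [CharZero F] {S : Super.{v, u, w} K F} {A B : K}

/-- the sign -/
def sg (n : ZMod 2) : ℚ := if n = 0 then 1 else -1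

lemma sg_add : ∀ i j : ZMod 2, sg (i + j) = sg i * sg j := by
  intro i j
  fin_cases i <;> fin_cases j <;> simp [sg] <;> decide

/-- the sign operator is algebraic -/
def Sg (S : Super.{v, u, w} K F) (A : K) : Prop :=
  ∃ s : A ⟶ A, ∀ (n : ZMod 2) (x : (S.H n).obj A), ((S.H n).map s).hom x = ((sg n : ℚ) : F) • x

lemma map_add_apply (n : ZMod 2) (f g : A ⟶ B) (x : (S.H n).obj A) :
    ((S.H n).map (f + g)).hom x = ((S.H n).map f).hom x + ((S.H n).map g).hom x := by
  have := S.additive n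
  rw [Functor.map_add]
  rfl

lemma map_smul_apply (n : ZMod 2) (q : ℚ) (f : A ⟶ B) (x : (S.H n).obj A) :
    ((S.H n).map (q • f)).hom x = (q : F) • ((S.H n).map f).hom x := by
  have := S.additive n
  have h : (S.H n).map (q • f) = (q : F) • (S.H n).map f := by
    have h1 := map_ratCast_smul ((S.H n).mapAddHom (X := A) (Y := B)) ℚ F q f
    simpa using h1
  rw [h]
  rfl

lemma Sg.factor {T : K} (i₁ : A ⟶ T) (i₂ : B ⟶ T) (p₁ : T ⟶ A) (p₂ : T ⟶ B)
    (h : p₁ ≫ i₁ + p₂ ≫ i₂ = 𝟙 T) (hA : Sg S A) (hB : Sg S B) : Sg S T := by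
  obtain ⟨s, hs⟩ := hA
  obtain ⟨t, ht⟩ := hB
  refine ⟨p₁ ≫ s ≫ i₁ + p₂ ≫ t ≫ i₂, fun n x => ?_⟩
  have e : ((S.H n).map (p₁ ≫ i₁ + p₂ ≫ i₂)).hom x = x := by
    rw [h, CategoryTheory.Functor.map_id]
    rfl
  rw [map_add_apply] at e ⊢
  rw [Functor.map_comp, Functor.map_comp, ModuleCat.hom_comp, ModuleCat.hom_comp,
    LinearMap.comp_apply, LinearMap.comp_apply] at e
  rw [Functor.map_comp, Functor.map_comp, Functor.map_comp, Functor.map_comp, ModuleCat.hom_comp,
    ModuleCat.hom_comp, ModuleCat.hom_comp, ModuleCat.hom_comp,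
    LinearMap.comp_apply, LinearMap.comp_apply, LinearMap.comp_apply, LinearMap.comp_apply, hs, ht,
    map_smul, map_smul, ← smul_add, e]

lemma Sg.tensor (hA : Sg S A) (hB : Sg S B) : Sg S (A ⊗ B) := by
  obtain ⟨s, hs⟩ := hA
  obtain ⟨t, ht⟩ := hB
  refine ⟨s ⊗ₘ t, fun n x => ?_⟩
  have hx : x ∈ Submodule.span F {z : (S.H n).obj (A ⊗ B) |
      ∃ (i j : ZMod 2) (h : i + j = n) (a : (S.H i).obj A) (b : (S.H j).obj B),
        S.mul A B i j n h a b = z} := by
    rw [S.mul_span A B n]
    trivial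
  induction hx using Submodule.span_induction with
  | mem z hz =>
    obtain ⟨i, j, h, a, b, rfl⟩ := hz
    have h1 : (sg n : F) = (sg j : F) * (sg i : F) := by
      rw [← h, sg_add]
      push_cast
      rw [mul_comm]
    rw [S.mul_map, hs, ht, map_smul, map_smul, LinearMap.smul_apply, smul_smul, h1]
  | zero => rw [map_zero, smul_zero]
  | add y z _ _ hy hz => rw [map_add, hy, hz, smul_add]
  | smul a y _ hy => rw [map_smul, hy, smul_comm]

lemma even_iff : EvenAlgebraic S A ↔ Sg S A := by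
  constructor
  · rintro ⟨p, h0, h1⟩
    refine ⟨(2 : ℚ) • p + (-1 : ℚ) • 𝟙 A, fun n x => ?_⟩
    rw [map_add_apply, map_smul_apply, map_smul_apply, CategoryTheory.Functor.map_id]
    by_cases hn : n = 0
    · subst hn
      rw [h0]
      simp only [sg, if_true, ModuleCat.hom_id, LinearMap.id_apply, ← add_smul]
      norm_num
    · have h3 : ∀ n : ZMod 2, n ≠ 0 → n = 1 := by decide
      have h2 := h3 n hn
      subst h2
      rw [h1]
      simp [sg]
  · rintro ⟨s, hs⟩
    refine ⟨(1 / 2 : ℚ) • s + (1 / 2 : ℚ) • 𝟙 A, ?_, ?_⟩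
    · ext x
      rw [map_add_apply, map_smul_apply, map_smul_apply, CategoryTheory.Functor.map_id, hs]
      simp only [sg, if_true, ModuleCat.hom_id, LinearMap.id_apply, smul_smul, ← add_smul]
      norm_num
    · ext x
      rw [map_add_apply, map_smul_apply, map_smul_apply, CategoryTheory.Functor.map_id, hs]
      have h2 : (1 : ZMod 2) ≠ 0 := by decide
      simp only [sg, if_neg h2, ModuleCat.hom_id, LinearMap.id_apply, smul_smul, ← add_smul]
      norm_num

end Pool.Agent.U672.NC
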